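import Pool.Agent.helper89.PU.Spec1

/-!
# Row BB2 (MP_2e0e07_nt, project PU): the second level is not too small
-/

set_option autoImplicit false

namespace Pool.Agent.PV

open Matrix Polynomial Pool.Agent.GO Pool.Agent.AR Pool.Agent.RG Pool.Agent.HZ Pool.Agent.DS
  Pool.Agent.AX Pool.Agent.UM Pool.Agent.PU MeasureTheory NumberField

/-- powers of `1 + p Y` modulo `p ^ 2` -/
theorem BB2_pow {A m : Type*} [CommRing A] [Fintype m] [DecidableEq m] (p : A) (Y : Matrix m m A)
    (k : ℕ) : ∃ Z : Matrix m m A, (1 + p • Y) ^ k = 1 + ((k : A) * p) • Y + (p ^ 2) • Z := by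
  induction k with
  | zero => exact ⟨0, by simp⟩
  | succ k ih =>
    obtain ⟨Z, hZ⟩ := ih
    refine ⟨(k : A) • (Y * Y) + Z + p • (Z * Y), ?_⟩
    rw [pow_succ, hZ]
    push_cast
    simp only [Matrix.add_mul, Matrix.mul_add, Matrix.smul_mul, Matrix.mul_smul, Matrix.one_mul,
      Matrix.mul_one]
    module

/-- the exponent of `p` in the order of a unit of the matrix ring over `ZMod p` -/
theorem BB2_ord (p : ℕ) [Fact p.Prime] {Γ m : Type} [Group Γ] [Fintype m] [DecidableEq m]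
    (f : Γ →* Matrix m m (ZMod p)) (g : Γ) :
    ∃ m' : ℕ, ¬ p ∣ m' ∧ f ((g ^ m') ^ (p ^ (Fintype.card m ^ 2))) = 1 := by
  classical
  have hp : p.Prime := Fact.out
  let F : Γ →* (Matrix m m (ZMod p))ˣ := f.toHomUnits
  have hn : 0 < orderOf (F g) := orderOf_pos (F g)
  obtain ⟨a, m', hm', hn'⟩ := Nat.exists_eq_pow_mul_and_not_dvd hn.ne' p hp.ne_one
  have hcard : orderOf (F g) ≤ p ^ (Fintype.card m ^ 2) := by
    refine orderOf_le_card_univ.trans ?_
    have h1 : Fintype.card (Matrix m m (ZMod p))ˣ ≤ Fintype.card (Matrix m m (ZMod p)) :=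
      Fintype.card_le_of_injective _ Units.val_injective
    refine h1.trans (le_of_eq ?_)
    have h2 : Fintype.card (Matrix m m (ZMod p)) = Fintype.card (m → m → ZMod p) :=
      Fintype.card_congr (Equiv.refl _)
    rw [h2, Fintype.card_fun, Fintype.card_fun, ZMod.card, ← pow_mul, pow_two]
  have ha : a ≤ Fintype.card m ^ 2 := by
    have hm0 : 0 < m' := by
      rcases Nat.eq_zero_or_pos m' with h | h
      · exact absurd (h ▸ dvd_zero p) hm'
      · exact h
    have h1 : p ^ a ≤ p ^ (Fintype.card m ^ 2) := by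
      refine le_trans ?_ hcard
      rw [hn']
      exact Nat.le_mul_of_pos_right _ hm0
    exact (Nat.pow_le_pow_iff_right hp.one_lt).1 h1
  refine ⟨m', hm', ?_⟩
  have h1 : orderOf (F g) ∣ m' * p ^ (Fintype.card m ^ 2) := by
    rw [hn', mul_comm]
    exact Nat.mul_dvd_mul_left m' (pow_dvd_pow p ha)
  have h2 : F ((g ^ m') ^ (p ^ (Fintype.card m ^ 2))) = 1 := by
    rw [map_pow, map_pow, ← pow_mul]
    exact orderOf_dvd_iff_pow_eq_one.1 h1
  have h3 := congrArg (fun u : (Matrix m m (ZMod p))ˣ => (u : Matrix m m (ZMod p))) h2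
  exact h3

theorem BB2 (hBUN : BUN_stmt) : BB2_stmt := by
  intro p _ d Γ F κ _ _ _ _ _ _ _ _ red hred hfin hp R S hS hBig G₁ κ₁ hG hL m _ _ V
  have hpp : p.Prime := Fact.out
  obtain ⟨-, g, hg⟩ := hBig
  obtain ⟨m', hm', hV⟩ := BB2_ord p (mapHom (PadicInt.toZMod (p := p)) V) g
  -- `x = g ^ m'`
  have hx1 : S (g ^ m') ≠ 1 := by
    rw [map_pow]
    intro h
    exact hm' (hg ▸ orderOf_dvd_of_pow_eq_one h)
  have hx2 : (S (g ^ m')) ^ p = 1 := by
    rw [map_pow, ← pow_mul, mul_comm, pow_mul, ← hg, pow_orderOf_eq_one, one_pow]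
  generalize g ^ m' = x at hV hx1 hx2
  have hnu : nu (R (x ^ p)) = (p : ℝ)⁻¹ := by
    rw [map_pow]
    refine hBUN p red hred d hfin hp (R x) (hL.int x) ?_ ?_
    · rw [← hS]; exact hx1
    · rw [← hS]; exact hx2
  have hp1 : (1 : ℝ) < p := by exact_mod_cast hpp.one_lt
  have hxG : x ^ p ∈ G₁ := by
    rw [hG, hnu]
    exact inv_lt_one_of_one_lt₀ hp1
  refine ⟨(x ^ p) ^ (p ^ (Fintype.card m ^ 2)), ⟨G₁.pow_mem hxG _, ?_⟩, ?_⟩
  · -- the congruence
    have h1 : ∀ i j, (p : ℤ_[p]) ∣ (V (x ^ (p ^ (Fintype.card m ^ 2))) - 1) i j := by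
      intro i j
      have h2 : PadicInt.toZMod ((V (x ^ (p ^ (Fintype.card m ^ 2))) - 1) i j) = (0 : ZMod p) := by
        have h3 := congrFun (congrFun hV i) j
        have h4 : (mapHom (PadicInt.toZMod (p := p)) V) (x ^ (p ^ (Fintype.card m ^ 2))) i j =
          PadicInt.toZMod (V (x ^ (p ^ (Fintype.card m ^ 2))) i j) := rfl
        rw [Matrix.sub_apply, map_sub, ← h4, h3, Matrix.one_apply, Matrix.one_apply]
        split_ifs
        · rw [map_one, sub_self]
        · rw [map_zero, sub_self]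
      have h5 : ((V (x ^ (p ^ (Fintype.card m ^ 2))) - 1) i j) ∈ RingHom.ker (PadicInt.toZMod (p := p)) := h2
      rw [PadicInt.ker_toZMod, PadicInt.maximalIdeal_eq_span_p] at h5
      exact Ideal.mem_span_singleton.1 h5
    choose Y hY using h1
    have h2 : V (x ^ (p ^ (Fintype.card m ^ 2))) = 1 + (p : ℤ_[p]) • (Matrix.of Y) := by
      ext i j
      have h3 := hY i j
      rw [Matrix.sub_apply] at h3
      rw [Matrix.add_apply, Matrix.smul_apply, Matrix.of_apply, smul_eq_mul, ← h3]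
      ring
    obtain ⟨Z, hZ⟩ := BB2_pow (p : ℤ_[p]) (Matrix.of Y) p
    have h3 : V ((x ^ p) ^ (p ^ (Fintype.card m ^ 2))) - 1 = ((p : ℤ_[p]) ^ 2) • (Matrix.of Y + Z) := by
      rw [← pow_mul, mul_comm, pow_mul, map_pow, h2, hZ, smul_add, ← pow_two]
      abel
    intro i j
    rw [h3, Matrix.smul_apply, smul_eq_mul]
    exact dvd_mul_right _ _
  · -- the distance
    rw [hL.pow _ hxG, hnu, Nat.cast_pow, norm_pow, norm_p p F, pow_succ, mul_inv, inv_pow]
end Pool.Agent.PV
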